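import Pool.Agent.Lib.ANT.DivBound

/-!
# Lower bound for the totient
-/

namespace Pool.Agent.SmallProd54

open Finset

lemma prod_le_card_mul (S : Finset ℕ) : (∀ p ∈ S, 2 ≤ p) →
    ∏ p ∈ S, p ≤ (S.card + 1) * ∏ p ∈ S, (p - 1) := by
  induction S using Finset.induction_on_max with
  | empty => intro _; simp
  | insert m S hm ih =>
    intro h2
    have hmS : m ∉ S := fun h => lt_irrefl _ (hm m h)
    have h3 := ih (fun p hp => h2 p (mem_insert_of_mem hp))
    have h4 : 2 ≤ m := h2 m (mem_insert_self _ _)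
    have h5 : S.card + 2 ≤ m := by
      have h6 : S ⊆ Finset.Ico 2 m := fun p hp =>
        Finset.mem_Ico.mpr ⟨h2 p (mem_insert_of_mem hp), hm p hp⟩
      have h7 := Finset.card_le_card h6
      rw [Nat.card_Ico] at h7
      omega
    rw [prod_insert hmS, prod_insert hmS, card_insert_of_notMem hmS]
    calc m * ∏ p ∈ S, p ≤ m * ((S.card + 1) * ∏ p ∈ S, (p - 1)) := Nat.mul_le_mul_left _ h3
      _ = (m * (S.card + 1)) * ∏ p ∈ S, (p - 1) := by ring
      _ ≤ ((S.card + 1 + 1) * (m - 1)) * ∏ p ∈ S, (p - 1) := by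
        refine Nat.mul_le_mul_right _ ?_
        obtain ⟨j, rfl⟩ : ∃ j, m = j + 1 := ⟨m - 1, by omega⟩
        rw [Nat.add_sub_cancel]
        nlinarith
      _ = _ := by ring

lemma le_totient_mul (d : ℕ) : d ≤ Nat.totient d * (d.primeFactors.card + 1) := by
  rcases Nat.eq_zero_or_pos d with rfl | hd
  · simp
  have h1 := Nat.totient_mul_prod_primeFactors d
  have h2 := prod_le_card_mul d.primeFactors (fun p hp => (Nat.prime_of_mem_primeFactors hp).two_le)
  have h3 : 0 < ∏ p ∈ d.primeFactors, p :=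
    Finset.prod_pos fun p hp => (Nat.prime_of_mem_primeFactors hp).pos
  have h4 : 0 < ∏ p ∈ d.primeFactors, (p - 1) :=
    Finset.prod_pos fun p hp => by
      have := (Nat.prime_of_mem_primeFactors hp).two_le
      omega
  have h5 : d * ∏ p ∈ d.primeFactors, (p - 1) ≤
      (Nat.totient d * (d.primeFactors.card + 1)) * ∏ p ∈ d.primeFactors, (p - 1) := by
    calc d * ∏ p ∈ d.primeFactors, (p - 1) = Nat.totient d * ∏ p ∈ d.primeFactors, p := h1.symm
      _ ≤ Nat.totient d * ((d.primeFactors.card + 1) * ∏ p ∈ d.primeFactors, (p - 1)) :=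
        Nat.mul_le_mul_left _ h2
      _ = _ := by ring
  exact Nat.le_of_mul_le_mul_right h5 h4

theorem totient_lower (K : ℝ) : ∃ d0 : ℕ, ∀ d : ℕ, d0 ≤ d →
    K * d / Real.log d ≤ Nat.totient d := by
  have hl2 : 0 < Real.log 2 := Real.log_pos (by norm_num)
  set A : ℝ := |K| + 1 with hA
  have hA1 : 1 ≤ A := by have := abs_nonneg K; linarith
  obtain ⟨C, hC, h⟩ := Pool.Agent.ANT.pow_omega_le (ε := Real.log 2 / (2 * A)) (by positivity)
    (c := 2) (by norm_num)
  have hC0 : 0 < C := by linarith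
  set B : ℝ := 2 * A * (1 + Real.log C / Real.log 2) with hB
  refine ⟨⌈Real.exp B⌉₊ + 2, fun d hd => ?_⟩
  have hd2 : 2 ≤ d := by omega
  have hdR : (2:ℝ) ≤ d := by exact_mod_cast hd2
  have hd0 : (0:ℝ) < d := by linarith
  have hlog : 0 < Real.log d := Real.log_pos (by linarith)
  have hBd : B ≤ Real.log d := by
    rw [Real.le_log_iff_exp_le hd0]
    have h1 : (⌈Real.exp B⌉₊ : ℝ) ≤ d := by exact_mod_cast (by omega : ⌈Real.exp B⌉₊ ≤ d)
    exact (Nat.le_ceil _).trans h1
  have h1 := h d (by omega)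
  have h2 : (d.primeFactors.card : ℝ) * Real.log 2 ≤
      Real.log C + Real.log 2 / (2 * A) * Real.log d := by
    have h3 := Real.log_le_log (by positivity) h1
    rw [Real.log_pow, Real.log_mul hC0.ne' (Real.rpow_pos_of_pos hd0 _).ne',
      Real.log_rpow hd0] at h3
    exact h3
  have h3 : ((d.primeFactors.card : ℝ) + 1) * A ≤ Real.log d := by
    have h4 : (d.primeFactors.card : ℝ) ≤ Real.log C / Real.log 2 + Real.log d / (2 * A) := by
      have h5 : (d.primeFactors.card : ℝ) ≤
          (Real.log C + Real.log 2 / (2 * A) * Real.log d) / Real.log 2 := by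
        rw [le_div_iff₀ hl2]; exact h2
      refine h5.trans (le_of_eq ?_)
      field_simp
    have h6 : ((d.primeFactors.card : ℝ) + 1) * A ≤
        (Real.log C / Real.log 2 + Real.log d / (2 * A) + 1) * A :=
      mul_le_mul_of_nonneg_right (by linarith) (by linarith)
    have h7 : (Real.log C / Real.log 2 + Real.log d / (2 * A) + 1) * A =
        B / 2 + Real.log d / 2 := by
      rw [hB]; field_simp; ring
    linarith
  have h4 : (d:ℝ) ≤ Nat.totient d * ((d.primeFactors.card : ℝ) + 1) := by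
    exact_mod_cast le_totient_mul d
  rw [div_le_iff₀ hlog]
  have hφ : (0:ℝ) ≤ (Nat.totient d : ℝ) := by positivity
  have hK : K ≤ A := by have := le_abs_self K; linarith
  calc K * d ≤ A * d := mul_le_mul_of_nonneg_right hK hd0.le
    _ ≤ A * (Nat.totient d * ((d.primeFactors.card : ℝ) + 1)) :=
      mul_le_mul_of_nonneg_left h4 (by linarith)
    _ = Nat.totient d * (((d.primeFactors.card : ℝ) + 1) * A) := by ring
    _ ≤ Nat.totient d * Real.log d := mul_le_mul_of_nonneg_left h3 hφ

end Pool.Agent.SmallProd54
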