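import Pool.Agent.SmallProd54.ExcA

/-!
# The exceptional set of the power threshold
-/

namespace Pool.Agent.SmallProd54

open Finset

open Classical in
/-- the least power of `p` which is larger than `T` -/
noncomputable def lp (T : ℝ) (p : ℕ) : ℕ :=
  if h : ∃ j : ℕ, T < (p:ℝ) ^ j then p ^ Nat.find h else 1

lemma lp_gt {T : ℝ} {p : ℕ} (hp : p.Prime) : T < lp T p := by
  classical
  have h : ∃ j : ℕ, T < (p:ℝ) ^ j :=
    pow_unbounded_of_one_lt T (by exact_mod_cast hp.one_lt)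
  rw [lp, dif_pos h]
  push_cast
  exact Nat.find_spec h

lemma lp_dvd {T : ℝ} {p v : ℕ} (h : T < (p:ℝ) ^ v) : lp T p ∣ p ^ v := by
  classical
  have h' : ∃ j : ℕ, T < (p:ℝ) ^ j := ⟨v, h⟩
  rw [lp, dif_pos h']
  exact pow_dvd_pow p (Nat.find_min' h' h)

lemma omega_le_log (M : ℕ) (hM : 1 ≤ M) :
    (M.primeFactors.card : ℝ) * Real.log 2 ≤ Real.log M := by
  have h1 : 2 ^ M.primeFactors.card ≤ M := by
    calc 2 ^ M.primeFactors.card = ∏ _p ∈ M.primeFactors, 2 := by rw [prod_const]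
      _ ≤ ∏ p ∈ M.primeFactors, p :=
        Finset.prod_le_prod' fun p hp => (Nat.prime_of_mem_primeFactors hp).two_le
      _ ≤ M := Nat.le_of_dvd (by omega) (Nat.prod_primeFactors_dvd M)
  have h2 : ((2:ℝ)) ^ M.primeFactors.card ≤ M := by exact_mod_cast h1
  have h3 := Real.log_le_log (by positivity) h2
  rwa [Real.log_pow] at h3

open Classical in
lemma exc_M_card (F n d M : ℕ) (T : ℝ) (hT0 : 0 < T) (hM : 1 ≤ M) (hF : 8 * F ≤ d)
    (hT : ∀ q : ℕ, d < 8 * F * q ^ n → T < q) :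
    (((range (d + 1)).filter (fun μ => ∃ p : ℕ, p.Prime ∧ p ∣ M ∧ p ∣ μ ∧
      d < 8 * F * (p ^ μ.factorization p) ^ n)).card : ℝ) ≤ M.primeFactors.card * (d / T) := by
  have hsub : ((range (d + 1)).filter (fun μ => ∃ p : ℕ, p.Prime ∧ p ∣ M ∧ p ∣ μ ∧
      d < 8 * F * (p ^ μ.factorization p) ^ n)) ⊆
      M.primeFactors.biUnion (fun p => (Ioc 0 d).filter (fun μ => lp T p ∣ μ)) := by
    intro μ hμ
    rw [mem_filter, mem_range] at hμ
    obtain ⟨hμd, p, hp, hpM, hpμ, hlt⟩ := hμ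
    have hμ0 : μ ≠ 0 := by
      rintro rfl
      simp at hlt
      omega
    rw [mem_biUnion]
    refine ⟨p, Nat.mem_primeFactors.mpr ⟨hp, hpM, by omega⟩, ?_⟩
    rw [mem_filter, mem_Ioc]
    refine ⟨⟨Nat.pos_of_ne_zero hμ0, by omega⟩, ?_⟩
    have h1 := hT _ hlt
    push_cast at h1
    exact (lp_dvd h1).trans (Nat.ordProj_dvd μ p)
  have h1 : (((range (d + 1)).filter (fun μ => ∃ p : ℕ, p.Prime ∧ p ∣ M ∧ p ∣ μ ∧
      d < 8 * F * (p ^ μ.factorization p) ^ n)).card : ℝ) ≤
      ∑ p ∈ M.primeFactors, (((Ioc 0 d).filter (fun μ => lp T p ∣ μ)).card : ℝ) := by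
    exact_mod_cast (card_le_card hsub).trans card_biUnion_le
  refine h1.trans ?_
  calc ∑ p ∈ M.primeFactors, (((Ioc 0 d).filter (fun μ => lp T p ∣ μ)).card : ℝ)
      ≤ ∑ _p ∈ M.primeFactors, (d / T : ℝ) := by
        refine sum_le_sum fun p hp => ?_
        rw [Nat.Ioc_filter_dvd_card_eq_div]
        refine Nat.cast_div_le.trans ?_
        exact div_le_div_of_nonneg_left (by positivity) hT0
          (lp_gt (Nat.prime_of_mem_primeFactors hp)).le
    _ = M.primeFactors.card * (d / T) := by rw [sum_const, nsmul_eq_mul]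

open Classical in
theorem exc_M (F n r : ℕ) (η : ℝ) (h : 0 < η) : ∃ d0 : ℕ, ∀ d : ℕ, d0 ≤ d → ∀ M : ℕ, 1 ≤ M →
    M ≤ d ^ r → (((range (d + 1)).filter (fun μ => ∃ p : ℕ, p.Prime ∧ p ∣ M ∧ p ∣ μ ∧
      d < 8 * F * (p ^ μ.factorization p) ^ n)).card : ℝ) ≤ η * Nat.totient d := by
  by_cases hF : F = 0
  · refine ⟨0, fun d _ M _ _ => ?_⟩
    have h1 : ((range (d + 1)).filter (fun μ => ∃ p : ℕ, p.Prime ∧ p ∣ M ∧ p ∣ μ ∧
      d < 8 * F * (p ^ μ.factorization p) ^ n)) = ∅ := by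
      refine filter_eq_empty_iff.mpr fun μ _ hμ => ?_
      obtain ⟨p, _, _, _, hlt⟩ := hμ
      rw [hF] at hlt
      simp at hlt
    rw [h1, card_empty, Nat.cast_zero]
    positivity
  by_cases hn : n = 0
  · refine ⟨8 * F, fun d hd M _ _ => ?_⟩
    have h1 : ((range (d + 1)).filter (fun μ => ∃ p : ℕ, p.Prime ∧ p ∣ M ∧ p ∣ μ ∧
      d < 8 * F * (p ^ μ.factorization p) ^ n)) = ∅ := by
      refine filter_eq_empty_iff.mpr fun μ _ hμ => ?_
      obtain ⟨p, _, _, _, hlt⟩ := hμ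
      rw [hn, pow_zero, mul_one] at hlt
      omega
    rw [h1, card_empty, Nat.cast_zero]
    positivity
  have hF1 : 1 ≤ F := by omega
  have hn1 : 1 ≤ n := by omega
  have hFR : (1:ℝ) ≤ F := by exact_mod_cast hF1
  have hnR : (1:ℝ) ≤ n := by exact_mod_cast hn1
  have hn0 : (0:ℝ) < n := by linarith
  have hl2 : 0 < Real.log 2 := Real.log_pos (by norm_num)
  set L : ℝ := r * (16 * n ^ 2) * (8 * F) / (η * Real.log 2) with hL
  obtain ⟨P0, hP1, hP0⟩ := Pool.Agent.ANT.exists_threshold (ε := 1 / (2 * n)) (by positivity) L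
  obtain ⟨d1, hd1⟩ := totient_lower 1
  refine ⟨d1 + P0 + 8 * F + 2, fun d hd M hM hMd => ?_⟩
  have hd2 : 2 ≤ d := by omega
  have hdR : (2:ℝ) ≤ d := by exact_mod_cast hd2
  have hd0 : (0:ℝ) < d := by linarith
  have hlog : 0 < Real.log d := Real.log_pos (by linarith)
  set u : ℝ := (d:ℝ) ^ (1 / (4 * (n:ℝ))) with hu
  have hu0 : 0 < u := Real.rpow_pos_of_pos hd0 _
  have hu4 : u ^ (4 * n) = d := by
    rw [hu, ← Real.rpow_natCast, ← Real.rpow_mul hd0.le]
    have : 1 / (4 * (n:ℝ)) * ((4 * n : ℕ) : ℝ) = 1 := by push_cast; field_simp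
    rw [this, Real.rpow_one]
  have hu2 : L ≤ u ^ 2 := by
    have h1 : (P0:ℝ) ^ (1 / (2 * (n:ℝ))) ≤ (d:ℝ) ^ (1 / (2 * (n:ℝ))) :=
      Real.rpow_le_rpow (by positivity) (by exact_mod_cast (by omega : P0 ≤ d)) (by positivity)
    have h2 : (d:ℝ) ^ (1 / (2 * (n:ℝ))) = u ^ 2 := by
      rw [hu, ← Real.rpow_natCast, ← Real.rpow_mul hd0.le]
      congr 1
      push_cast
      field_simp
      norm_num
    linarith
  -- the threshold
  set T : ℝ := u ^ 4 / (8 * F) with hT
  have hT0 : 0 < T := by positivity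
  have hTq : ∀ q : ℕ, d < 8 * F * q ^ n → T < q := by
    intro q hq
    by_contra hcon
    push Not at hcon
    have h1 : (q:ℝ) ^ n ≤ T ^ n := pow_le_pow_left₀ (by positivity) hcon n
    have h2 : (d:ℝ) < 8 * F * (q:ℝ) ^ n := by exact_mod_cast hq
    have h3 : T ^ n = d / (8 * F) ^ n := by
      rw [hT, div_pow, ← pow_mul, hu4]
    have h4 : (8 * (F:ℝ)) ≤ (8 * F) ^ n := by
      have h5 : (8 * (F:ℝ)) ^ 1 ≤ (8 * F) ^ n := pow_le_pow_right₀ (by linarith) hn1
      rwa [pow_one] at h5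
    have h6 : 8 * F * (d / (8 * (F:ℝ)) ^ n) ≤ d := by
      rw [mul_div_assoc', div_le_iff₀ (by positivity), mul_comm]
      exact mul_le_mul_of_nonneg_left h4 hd0.le
    have h7 : 8 * F * (q:ℝ) ^ n ≤ 8 * F * (d / (8 * (F:ℝ)) ^ n) := by
      rw [← h3]
      exact mul_le_mul_of_nonneg_left h1 (by positivity)
    linarith
  have hcard := exc_M_card F n d M T hT0 hM (by omega) hTq
  refine hcard.trans ?_
  -- omega
  have hom : (M.primeFactors.card : ℝ) * Real.log 2 ≤ r * Real.log d := by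
    refine (omega_le_log M hM).trans ?_
    have h1 : (M:ℝ) ≤ (d:ℝ) ^ r := by exact_mod_cast hMd
    have h2 := Real.log_le_log (by exact_mod_cast (by omega : 0 < M)) h1
    rwa [Real.log_pow] at h2
  have hlogu : Real.log d ≤ 4 * n * u := by
    rw [← hu4, Real.log_pow]
    push_cast
    refine mul_le_mul_of_nonneg_left ?_ (by positivity)
    exact (Real.log_le_sub_one_of_pos hu0).trans (by linarith)
  have htot : (d:ℝ) ≤ Nat.totient d * Real.log d := by
    have h1 := hd1 d (by omega)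
    rw [one_mul, div_le_iff₀ hlog] at h1
    exact h1
  have hφ : (0:ℝ) ≤ (Nat.totient d : ℝ) := by positivity
  have h1 : (M.primeFactors.card : ℝ) * (Real.log d) ≤ η * T := by
    have h2 : (M.primeFactors.card : ℝ) * Real.log d * Real.log 2 ≤ η * T * Real.log 2 := by
      calc (M.primeFactors.card : ℝ) * Real.log d * Real.log 2
          = (M.primeFactors.card : ℝ) * Real.log 2 * Real.log d := by ring
        _ ≤ (r * Real.log d) * Real.log d := mul_le_mul_of_nonneg_right hom hlog.le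
        _ = r * (Real.log d) ^ 2 := by ring
        _ ≤ r * (4 * n * u) ^ 2 := by
          refine mul_le_mul_of_nonneg_left ?_ (by positivity)
          exact pow_le_pow_left₀ hlog.le hlogu 2
        _ = (L * (η * Real.log 2) / (8 * F)) * u ^ 2 := by
          rw [hL]; field_simp; ring
        _ ≤ (u ^ 2 * (η * Real.log 2) / (8 * F)) * u ^ 2 := by
          refine mul_le_mul_of_nonneg_right ?_ (by positivity)
          refine div_le_div_of_nonneg_right ?_ (by positivity)
          exact mul_le_mul_of_nonneg_right hu2 (by positivity)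
        _ = η * T * Real.log 2 := by rw [hT]; ring
    exact le_of_mul_le_mul_right h2 hl2
  calc (M.primeFactors.card : ℝ) * (d / T) ≤
      (M.primeFactors.card : ℝ) * ((Nat.totient d * Real.log d) / T) := by
        refine mul_le_mul_of_nonneg_left ?_ (by positivity)
        exact div_le_div_of_nonneg_right htot hT0.le
    _ = Nat.totient d * ((M.primeFactors.card : ℝ) * Real.log d) / T := by ring
    _ ≤ Nat.totient d * (η * T) / T := by
        refine div_le_div_of_nonneg_right ?_ hT0.le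
        exact mul_le_mul_of_nonneg_left h1 hφ
    _ = η * Nat.totient d := by field_simp

end Pool.Agent.SmallProd54
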