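import Mathlib

/-!
# The exceptional set of the linear threshold
-/

namespace Pool.Agent.SmallProd54

open Finset

open Classical in
lemma exc_T_card (c d : ℕ) (hc : 8 * c ≤ d) :
    ((range (d + 1)).filter (fun μ => ∃ p : ℕ, p.Prime ∧ p ∣ μ ∧
      d < 8 * c * p ^ μ.factorization p)).card ≤
      8 * c * (Nat.primeCounting d + (Nat.sqrt d + 1) * (Nat.log 2 d + 1)) := by

  set P : Finset ℕ := (d + 1).primesBelow with hP
  set Q : Finset ℕ := ((range (Nat.sqrt d + 1)) ×ˢ (range (Nat.log 2 d + 1))).image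
    (fun x => x.1 ^ x.2) with hQ
  have hsub : ((range (d + 1)).filter (fun μ => ∃ p : ℕ, p.Prime ∧ p ∣ μ ∧
      d < 8 * c * p ^ μ.factorization p)) ⊆
      ((range (8 * c)) ×ˢ (P ∪ Q)).image (fun x => x.1 * x.2) := by
    intro μ hμ
    rw [mem_filter, mem_range] at hμ
    obtain ⟨hμd, p, hp, hpμ, hlt⟩ := hμ
    have hμ0 : μ ≠ 0 := by
      rintro rfl
      simp at hlt
      omega
    have hqd' : p ^ μ.factorization p ∣ μ := Nat.ordProj_dvd μ p
    have hqd : p ^ μ.factorization p ≤ d :=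
      (Nat.le_of_dvd (Nat.pos_of_ne_zero hμ0) hqd').trans (by omega)
    obtain ⟨k, hk⟩ := hqd'
    have hv1 : 1 ≤ μ.factorization p := (hp.dvd_iff_one_le_factorization hμ0).mp hpμ
    generalize μ.factorization p = v at *
    have hk8 : k < 8 * c := by
      by_contra h
      push Not at h
      have h1 : 8 * c * p ^ v ≤ k * p ^ v := Nat.mul_le_mul_right _ h
      have h2 : k * p ^ v = μ := by rw [mul_comm]; exact hk.symm
      omega
    refine mem_image.mpr ⟨(k, p ^ v), mem_product.mpr ⟨mem_range.mpr hk8, ?_⟩, ?_⟩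
    · rw [mem_union]
      by_cases hps : p ≤ Nat.sqrt d
      · right
        refine mem_image.mpr ⟨(p, v), mem_product.mpr ⟨mem_range.mpr (by omega),
          mem_range.mpr ?_⟩, rfl⟩
        have h1 : 2 ^ v ≤ d := (Nat.pow_le_pow_left hp.two_le v).trans hqd
        have h2 := Nat.le_log_of_pow_le (by norm_num) h1
        omega
      · left
        have hv2 : v < 2 := by
          by_contra h
          push Not at h
          have h3 : p ^ 2 ≤ p ^ v := Nat.pow_le_pow_right hp.pos h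
          have h4 : d < p ^ 2 := by
            rw [not_le, Nat.sqrt_lt'] at hps
            exact hps
          omega
        have hv : v = 1 := by omega
        subst hv
        rw [pow_one] at hqd ⊢
        exact Nat.mem_primesBelow.mpr ⟨by omega, hp⟩
    · show k * p ^ v = μ
      rw [mul_comm]
      exact hk.symm
  calc _ ≤ _ := card_le_card hsub
    _ ≤ ((range (8 * c)) ×ˢ (P ∪ Q)).card := card_image_le
    _ = 8 * c * (P ∪ Q).card := by rw [card_product, card_range]
    _ ≤ 8 * c * (P.card + Q.card) := Nat.mul_le_mul_left _ (card_union_le _ _)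
    _ ≤ _ := by
      refine Nat.mul_le_mul_left _ (Nat.add_le_add ?_ ?_)
      · rw [hP, Nat.primesBelow_card_eq_primeCounting']
        exact le_rfl
      · rw [hQ]
        refine card_image_le.trans ?_
        rw [card_product, card_range, card_range]

lemma pp_asymp : ∃ d0 : ℕ, ∀ d : ℕ, d0 ≤ d →
    (Nat.primeCounting d : ℝ) + (Nat.sqrt d + 1) * (Nat.log 2 d + 1) ≤
      (2 * Real.log 4 + 3) * d / Real.log d := by
  refine ⟨14 ^ 8, fun d hd => ?_⟩
  have hdR : (14:ℝ) ^ 8 ≤ d := by exact_mod_cast hd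
  have hd0 : (0:ℝ) < d := by
    have : (0:ℝ) < 14 ^ 8 := by positivity
    linarith
  have hd1 : (1:ℝ) < d := by
    have : (1:ℝ) < 14 ^ 8 := by norm_num
    linarith
  set t : ℝ := (d:ℝ) ^ ((1:ℝ) / 8) with ht
  have ht8 : t ^ 8 = d := by
    rw [ht, ← Real.rpow_natCast, ← Real.rpow_mul hd0.le]
    norm_num
  have ht0 : 0 < t := Real.rpow_pos_of_pos hd0 _
  have ht14 : 14 ≤ t := by
    by_contra h
    push Not at h
    have : t ^ 8 < 14 ^ 8 := pow_lt_pow_left₀ h ht0.le (by norm_num)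
    linarith
  have hlog : Real.log d = 8 * Real.log t := by
    rw [← ht8, Real.log_pow]; norm_num
  have hlt : Real.log t ≤ t := (Real.log_le_sub_one_of_pos ht0).trans (by linarith)
  have hlog1 : 1 ≤ Real.log t := by
    rw [Real.le_log_iff_exp_le ht0]
    have := Real.exp_one_lt_d9
    linarith
  set L := Real.log d with hL
  have hL8 : L ≤ 8 * t := by rw [hlog]; linarith
  have hL0 : 8 ≤ L := by rw [hlog]; linarith
  have hsq : Real.sqrt d = t ^ 4 := by
    rw [← ht8]
    have : t ^ 8 = (t ^ 4) ^ 2 := by ring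
    rw [this, Real.sqrt_sq (by positivity)]
  have hpi : (Nat.primeCounting d : ℝ) ≤ 2 * Real.log 4 * d / L + t ^ 4 := by
    have h1 := Chebyshev.pi_le_log4_mul_div (x := (d:ℝ)) hd1
    rw [Nat.floor_natCast, hsq] at h1
    have h2 : Real.log (t ^ 4) = L / 2 := by
      rw [Real.log_pow, hlog]; norm_num; ring
    rw [h2] at h1
    refine h1.trans (le_of_eq ?_)
    field_simp
  have hs : (Nat.sqrt d : ℝ) ≤ t ^ 4 := by
    rw [← hsq]
    exact Real.nat_sqrt_le_real_sqrt
  have hlg : (Nat.log 2 d : ℝ) ≤ 2 * L := by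
    have h1 : (2:ℝ) ^ (Nat.log 2 d) ≤ d := by
      exact_mod_cast Nat.pow_log_le_self 2 (by
        have : 0 < 14 ^ 8 := by positivity
        omega)
    have h2 := Real.log_le_log (by positivity) h1
    rw [Real.log_pow] at h2
    have h3 : (1:ℝ) / 2 ≤ Real.log 2 := by
      have := Real.log_two_gt_d9
      linarith
    have h4 : (0:ℝ) ≤ (Nat.log 2 d : ℝ) := by positivity
    have h5 : (Nat.log 2 d : ℝ) * (1 / 2) ≤ (Nat.log 2 d : ℝ) * Real.log 2 :=
      mul_le_mul_of_nonneg_left h3 h4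
    linarith
  have hprod : ((Nat.sqrt d : ℝ) + 1) * ((Nat.log 2 d : ℝ) + 1) ≤ (2 * t ^ 4) * (3 * L) := by
    refine mul_le_mul ?_ (by linarith) (by positivity) (by positivity)
    have : 1 ≤ t ^ 4 := one_le_pow₀ (by linarith)
    linarith
  have ht2 : 192 ≤ t ^ 2 := by nlinarith
  -- everything over `L`
  rw [le_div_iff₀ (by linarith)]
  have e1 : (2 * Real.log 4 * d / L) * L = 2 * Real.log 4 * d := by
    field_simp
  have e2 : t ^ 4 * L ≤ d := by
    calc t ^ 4 * L ≤ t ^ 4 * (8 * t) := mul_le_mul_of_nonneg_left hL8 (by positivity)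
      _ = 8 * t ^ 5 := by ring
      _ ≤ t ^ 3 * t ^ 5 := by
        refine mul_le_mul_of_nonneg_right ?_ (by positivity)
        calc (8:ℝ) ≤ 14 ^ 3 := by norm_num
          _ ≤ t ^ 3 := pow_le_pow_left₀ (by norm_num) ht14 3
      _ = d := by rw [← ht8]; ring
  have e3 : (2 * t ^ 4) * (3 * L) * L ≤ 2 * d := by
    calc (2 * t ^ 4) * (3 * L) * L = 6 * t ^ 4 * L ^ 2 := by ring
      _ ≤ 6 * t ^ 4 * (8 * t) ^ 2 := by
        refine mul_le_mul_of_nonneg_left ?_ (by positivity)
        exact pow_le_pow_left₀ (by linarith) hL8 2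
      _ = 2 * (192 * t ^ 6) := by ring
      _ ≤ 2 * (t ^ 2 * t ^ 6) := by
        refine mul_le_mul_of_nonneg_left ?_ (by norm_num)
        exact mul_le_mul_of_nonneg_right ht2 (by positivity)
      _ = 2 * d := by rw [← ht8]; ring
  have hLpos : 0 ≤ L := by linarith
  calc ((Nat.primeCounting d : ℝ) + (Nat.sqrt d + 1) * (Nat.log 2 d + 1)) * L
      ≤ ((2 * Real.log 4 * d / L + t ^ 4) + (2 * t ^ 4) * (3 * L)) * L :=
        mul_le_mul_of_nonneg_right (by linarith) hLpos
    _ = 2 * Real.log 4 * d + t ^ 4 * L + (2 * t ^ 4) * (3 * L) * L := by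
        rw [add_mul, add_mul, e1]
    _ ≤ (2 * Real.log 4 + 3) * d := by linarith

open Classical in
theorem exc_T_of (hA : ∀ K : ℝ, ∃ d0 : ℕ, ∀ d : ℕ, d0 ≤ d →
      K * d / Real.log d ≤ Nat.totient d) (c : ℕ) (η : ℝ) (h : 0 < η) :
    ∃ d0 : ℕ, ∀ d : ℕ, d0 ≤ d → (((range (d + 1)).filter (fun μ => ∃ p : ℕ, p.Prime ∧ p ∣ μ ∧
      d < 8 * c * p ^ μ.factorization p)).card : ℝ) ≤ η * Nat.totient d := by
  obtain ⟨d1, h1⟩ := pp_asymp
  obtain ⟨d2, h2⟩ := hA (8 * c * (2 * Real.log 4 + 3) / η)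
  refine ⟨max (max d1 d2) (8 * c + 2), fun d hd => ?_⟩
  have hd1 : d1 ≤ d := by omega
  have hd2 : d2 ≤ d := by omega
  have h3 := h1 d hd1
  have h4 := h2 d hd2
  have h5 : (((range (d + 1)).filter (fun μ => ∃ p : ℕ, p.Prime ∧ p ∣ μ ∧
      d < 8 * c * p ^ μ.factorization p)).card : ℝ) ≤
      8 * c * ((Nat.primeCounting d : ℝ) + (Nat.sqrt d + 1) * (Nat.log 2 d + 1)) := by
    exact_mod_cast exc_T_card c d (by omega)
  have hlog : 0 < Real.log d := Real.log_pos (by
    have : 2 ≤ d := by omega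
    exact_mod_cast this)
  calc _ ≤ _ := h5
    _ ≤ 8 * c * ((2 * Real.log 4 + 3) * d / Real.log d) :=
      mul_le_mul_of_nonneg_left h3 (by positivity)
    _ = η * (8 * c * (2 * Real.log 4 + 3) / η * d / Real.log d) := by
      field_simp
    _ ≤ η * Nat.totient d := mul_le_mul_of_nonneg_left h4 h.le

end Pool.Agent.SmallProd54
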