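import Pool.Agent.SmallProd54.Pair
import Pool.Agent.Lib.ANT.DivBound
import Pool.Agent.SmallDeg.A3
import Pool.Agent.SmallDeg.ProdGeom

/-!
# The arithmetic lemma for the product of the degrees
-/

namespace Pool.Agent.SmallProd54

open Finset Pool.Agent.SmallDeg

theorem arith_prod (c0 r : ℕ) (hc : 1 ≤ c0) (ε : ℝ) (h1 : 0 < ε) (h2 : ε < 1) : AL c0 r ε := by
  set η : ℝ := ε / 64 with hη
  have hη0 : 0 < η := by positivity
  obtain ⟨C1, hC1, hom⟩ := Pool.Agent.ANT.pow_omega_le (ε := η / (r + 1)) (by positivity)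
    (c := 5) (by norm_num)
  obtain ⟨C2, hC2, htau⟩ := Pool.Agent.ANT.tauR_le_rpow (ε := η / 2) (by positivity)
  set K : ℝ := 2 * c0 + 5 + 2 ^ (c0 + 1) with hK
  have hK1 : 1 ≤ K := by
    have h3 : (0:ℝ) ≤ c0 := by positivity
    have h4 : (0:ℝ) < 2 ^ (c0 + 1) := by positivity
    linarith
  set E : ℝ := 5 * K * C1 ^ 2 with hE
  have hC12 : 1 ≤ C1 ^ 2 := one_le_pow₀ hC1
  have hE1 : 1 ≤ E := by
    have : 1 ≤ K * C1 ^ 2 := one_le_mul_of_one_le_of_one_le hK1 hC12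
    rw [hE]; linarith
  set C3 : ℝ := C2 * E ^ (η / 2) with hC3
  have hC3' : 1 ≤ C3 :=
    one_le_mul_of_one_le_of_one_le hC2 (Real.one_le_rpow hE1 (by positivity))
  set C4 : ℝ := (4 * K * C1 ^ 2 + 1) * C3 with hC4
  have hC40 : 0 ≤ C4 := by positivity
  set Y : ℝ := 1 + 16 * K ^ 2 * C1 ^ 4 + (C4 + 2 * C1) * (8 * K ^ 2 * C1 ^ 5) + 4 * K * C1 ^ 2
    with hY
  have hY0 : 0 < Y := by
    rw [hY]
    have h3 : 0 ≤ 16 * K ^ 2 * C1 ^ 4 := by positivity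
    have h4 : 0 ≤ (C4 + 2 * C1) * (8 * K ^ 2 * C1 ^ 5) := by positivity
    have h5 : 0 ≤ 4 * K * C1 ^ 2 := by positivity
    linarith
  refine ⟨1 + (Y ^ (1 / η)) ^ 2, by positivity, fun d M D hd hM hMd hD hdec => ?_⟩
  have hd1 : (1:ℝ) ≤ d := by exact_mod_cast hd
  have hd0 : (0:ℝ) < d := by linarith
  rcases Nat.eq_zero_or_pos D with hD0 | hD0
  · subst hD0
    exact dvd_zero d
  have hD1 : (1:ℝ) ≤ D := by exact_mod_cast hD0
  set y : ℝ := (d:ℝ) ^ η with hy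
  set z : ℝ := (d:ℝ) ^ (1 - ε) with hz
  have hy1 : 1 ≤ y := Real.one_le_rpow hd1 hη0.le
  have hz1 : 1 ≤ z := Real.one_le_rpow hd1 (by linarith)
  have hzy : (d:ℝ) = z * y ^ 64 := by
    rw [hz, hy, ← Real.rpow_natCast, ← Real.rpow_mul hd0.le, ← Real.rpow_add hd0]
    have h3 : 1 - ε + η * (64:ℕ) = 1 := by push_cast; rw [hη]; ring
    rw [h3, Real.rpow_one]
  have hpow : (d:ℝ) ^ (1 - ε / 4) = z * y ^ 48 := by
    rw [hz, hy, ← Real.rpow_natCast, ← Real.rpow_mul hd0.le, ← Real.rpow_add hd0]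
    congr 1
    push_cast
    rw [hη]
    ring
  have hDz : (D:ℝ) ≤ z * d := by
    have h3 : (d:ℝ) ^ (2 - ε) = z * d := by
      have h4 : (2:ℝ) - ε = (1 - ε) + 1 := by ring
      rw [h4, Real.rpow_add hd0, Real.rpow_one]
    rw [h3] at hD
    have h4 : 1 * (D:ℝ) ≤ (1 + (Y ^ (1 / η)) ^ 2) * D := by
      refine mul_le_mul_of_nonneg_right ?_ (by positivity)
      have : 0 ≤ (Y ^ (1 / η)) ^ 2 := by positivity
      linarith
    linarith
  have hYy : Y ≤ y := by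
    by_contra h
    push Not at h
    have h3 : (d:ℝ) < Y ^ (1 / η) := by
      have h4 : y ^ (1 / η) < Y ^ (1 / η) :=
        Real.rpow_lt_rpow (by positivity) h (by positivity)
      have h5 : y ^ (1 / η) = d := by
        rw [hy, ← Real.rpow_mul hd0.le, mul_one_div_cancel hη0.ne', Real.rpow_one]
      rwa [h5] at h4
    have h4 : (d:ℝ) ^ (2 - ε) ≤ (d:ℝ) ^ 2 := by
      rw [← Real.rpow_natCast]
      exact Real.rpow_le_rpow_of_exponent_le hd1 (by push_cast; linarith)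
    have h5 : (d:ℝ) ^ 2 ≤ (Y ^ (1 / η)) ^ 2 := pow_le_pow_left₀ hd0.le h3.le 2
    have h6 : (1 + (Y ^ (1 / η)) ^ 2) * 1 ≤ (1 + (Y ^ (1 / η)) ^ 2) * D :=
      mul_le_mul_of_nonneg_left hD1 (by positivity)
    linarith
  set w : ℝ := 5 ^ (oddP M).card with hw
  have hw1 : 1 ≤ w := one_le_pow₀ (by norm_num)
  have hw0 : 0 < w := by linarith
  have hwy : w ≤ C1 * y := by
    calc w ≤ 5 ^ M.primeFactors.card := pow_le_pow_right₀ (by norm_num) (oddP_card_le M)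
      _ ≤ C1 * (M:ℝ) ^ (η / (r + 1)) := hom M (by omega)
      _ ≤ C1 * y := by
        refine mul_le_mul_of_nonneg_left ?_ (by linarith)
        calc (M:ℝ) ^ (η / (r + 1)) ≤ ((d:ℝ) ^ r) ^ (η / (r + 1)) :=
              Real.rpow_le_rpow (by positivity) (by exact_mod_cast hMd) (by positivity)
          _ = (d:ℝ) ^ ((r:ℝ) * (η / (r + 1))) := by
              rw [← Real.rpow_natCast, ← Real.rpow_mul hd0.le]
          _ ≤ y := by
              refine Real.rpow_le_rpow_of_exponent_le hd1 ?_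
              have hr : (0:ℝ) ≤ r := by positivity
              rw [mul_div_assoc', div_le_iff₀ (by positivity)]
              nlinarith
  obtain ⟨a₁, a₂, ha1, ha2, ha20, hodd, hcop, hle1, hle2, hq1, hq2, hodd2⟩ := choose_pair c0 d M
  have h25 : (25:ℝ) ^ (oddP M).card = w ^ 2 := by
    rw [hw, ← pow_mul, mul_comm, pow_mul]; norm_num
  have hb1 : (a₁:ℝ) ≤ K * w ^ 2 := by
    have h3 : ((a₁:ℕ):ℝ) ≤ (((2 * c0 + 5 + 2 ^ (c0 + 1)) * 25 ^ (oddP M).card : ℕ) : ℝ) :=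
      Nat.cast_le.mpr hle1
    push_cast at h3
    rwa [h25] at h3
  have hb2 : (a₂:ℝ) ≤ K * w ^ 2 := by
    have h3 : ((a₂:ℕ):ℝ) ≤ (((2 * c0 + 5 + 2 ^ (c0 + 1)) * 25 ^ (oddP M).card : ℕ) : ℝ) :=
      Nat.cast_le.mpr hle2
    push_cast at h3
    rwa [h25] at h3
  have h11 : (1:ℝ) ≤ a₁ := by exact_mod_cast hc.trans ha1
  have h12 : (1:ℝ) ≤ a₂ := by exact_mod_cast hc.trans ha2
  obtain ⟨hs1, hs2, hs3⟩ := sizes hK1 hC1 hC3' hC4 hY hYy hz1 hw1 hwy hzy h11 h12 hb1 hb2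
  have hbig : 16 * (a₁ * a₂) ≤ d := by exact_mod_cast hs1
  have ha2le : a₂ ≤ a₁ * a₂ := Nat.le_mul_of_pos_left _ hodd.pos
  have hdodd : Odd (d - a₂) := hodd2 (by omega)
  obtain ⟨G, hGcard, hG⟩ := prog d M a₁ a₂ hM hodd ha20 hcop hdodd hq1 hq2 hbig
  set X := 4 * a₁ * D / d with hX
  have hXd : X * d ≤ 4 * a₁ * D := Nat.div_mul_le_self _ _
  set B := ⌊C3 * y⌋₊ with hB
  refine A3 d D a₁ a₂ X B hd hcop hodd.pos ha20 G (fun μ hμ => ?_) (fun n hn hnle => ?_) ?_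
  · obtain ⟨μ₂, e1, e2, e3, e4⟩ := hG μ hμ
    have hμ1 : z * y ^ 48 ≤ (μ:ℝ) := hs3 μ a₁ (by linarith) hb1 (by exact_mod_cast e3)
    have hμ2 : z * y ^ 48 ≤ (μ₂:ℝ) := hs3 μ₂ a₂ (by linarith) hb2 (by exact_mod_cast e4)
    obtain ⟨x, y', hxy⟩ := hdec a₁ a₂ μ μ₂ ha1 ha2 (by rwa [hpow]) (by rwa [hpow]) e1 e2
    refine ⟨μ₂, x, y', e1, ?_, hxy, ?_⟩
    · have h3 : 0 < z * y ^ 48 := by positivity
      exact_mod_cast h3.trans_le hμ2
    · rw [hX, Nat.le_div_iff_mul_le hd]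
      calc x * d ≤ x * (4 * a₁ * μ) := Nat.mul_le_mul_left _ e3
        _ = 4 * a₁ * (x * μ) := by ring
        _ ≤ 4 * a₁ * D := Nat.mul_le_mul_left _ (by omega)
  · rw [hB, Nat.le_floor_iff (by positivity)]
    have hn2 : (n:ℝ) ≤ E * (d:ℝ) ^ 2 := by
      have h3 : n ≤ 5 * (a₁ * D) := by
        have h4 : 4 * a₁ * D = 4 * (a₁ * D) := by ring
        omega
      have h4 : (n:ℝ) ≤ 5 * (a₁ * D) := by exact_mod_cast h3
      have h5 : w ^ 2 ≤ C1 ^ 2 * y ^ 2 := by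
        rw [← mul_pow]; exact pow_le_pow_left₀ hw0.le hwy 2
      have h6 : y ^ 2 ≤ y ^ 64 := pow_le_pow_right₀ hy1 (by norm_num)
      calc (n:ℝ) ≤ 5 * (a₁ * D) := h4
        _ ≤ 5 * ((K * w ^ 2) * (z * d)) := by gcongr
        _ ≤ 5 * ((K * (C1 ^ 2 * y ^ 2)) * (z * d)) := by gcongr
        _ = E * (z * y ^ 2) * d := by rw [hE]; ring
        _ ≤ E * (z * y ^ 64) * d := by gcongr
        _ = E * (d:ℝ) ^ 2 := by rw [← hzy]; ring
    calc ((n.divisors.card : ℕ) : ℝ) ≤ C2 * (n:ℝ) ^ (η / 2) := htau n hn.ne'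
      _ ≤ C2 * (E * (d:ℝ) ^ 2) ^ (η / 2) := by
          refine mul_le_mul_of_nonneg_left ?_ (by linarith)
          exact Real.rpow_le_rpow (by positivity) hn2 (by positivity)
      _ = C3 * y := by
          rw [Real.mul_rpow (by positivity) (by positivity), ← Real.rpow_natCast (d:ℝ) 2,
            ← Real.rpow_mul hd0.le, hC3, hy]
          have h3 : ((2:ℕ):ℝ) * (η / 2) = η := by push_cast; ring
          rw [h3]
          ring
  · have h3 : ((X + 1 : ℝ)) * (B:ℝ) < (G.card:ℝ) := by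
      refine hs2 X B ((d / (8 * (a₁ * a₂)) : ℕ) : ℝ) G.card (by positivity) ?_ ?_ ?_ hGcard
      · have h4 : (X:ℝ) * d ≤ 4 * a₁ * D := by exact_mod_cast hXd
        have h5 : 4 * (a₁:ℝ) * D ≤ 4 * a₁ * z * d := by
          calc 4 * (a₁:ℝ) * D ≤ 4 * a₁ * (z * d) := by gcongr
            _ = _ := by ring
        exact le_of_mul_le_mul_right (h4.trans h5) hd0
      · exact Nat.floor_le (by positivity)
      · have h4 : d < 8 * (a₁ * a₂) * (d / (8 * (a₁ * a₂)) + 1) :=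
          Nat.lt_mul_div_succ _ (by have := hodd.pos; positivity)
        exact_mod_cast h4
    exact_mod_cast h3

end Pool.Agent.SmallProd54
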