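import Pool.Agent.SmallProd54.Prog

/-!
# Choice of the two coefficients, and the inequalities between the sizes
-/

namespace Pool.Agent.SmallProd54

open Finset

lemma choose_pair (c0 d M : ℕ) : ∃ a₁ a₂ : ℕ, c0 ≤ a₁ ∧ c0 ≤ a₂ ∧ 0 < a₂ ∧ Odd a₁ ∧
    Nat.Coprime a₁ a₂ ∧ a₁ ≤ (2 * c0 + 5 + 2 ^ (c0 + 1)) * 25 ^ (oddP M).card ∧
    a₂ ≤ (2 * c0 + 5 + 2 ^ (c0 + 1)) * 25 ^ (oddP M).card ∧ (∀ q ∈ oddP M, ¬ q ∣ a₁) ∧
    (∀ q ∈ oddP M, ¬ q ∣ a₂) ∧ (a₂ ≤ d → Odd (d - a₂)) := by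
  obtain ⟨a, ha0, haodd, hale, haq⟩ := choose_a c0 M
  have h25 : 1 ≤ 25 ^ (oddP M).card := Nat.one_le_pow _ _ (by norm_num)
  set W := 25 ^ (oddP M).card with hW
  have hb1 : a + 2 ≤ (2 * c0 + 5 + 2 ^ (c0 + 1)) * W := by
    have h1 : (2 * c0 + 3) * 1 ≤ (2 * c0 + 3) * W := Nat.mul_le_mul_left _ h25
    have h2 : (2 * c0 + 5 + 2 ^ (c0 + 1)) * W = (2 * c0 + 3) * W + 2 * W + 2 ^ (c0 + 1) * W := by
      ring
    have h3 : 0 ≤ 2 ^ (c0 + 1) * W := Nat.zero_le _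
    omega
  rcases Nat.even_or_odd d with hd | hd
  · refine ⟨a, a + 2, ha0, by omega, by omega, haodd, ?_, by omega, hb1, fun q hq => (haq q hq).1,
      fun q hq => (haq q hq).2, fun hle => ?_⟩
    · rw [Nat.coprime_self_add_right]
      exact Nat.coprime_two_right.mpr haodd
    · exact Nat.Even.sub_odd hle hd (haodd.add_even even_two)
  · have hlt : c0 + 1 < 2 ^ (c0 + 1) := Nat.lt_two_pow_self
    refine ⟨a, 2 ^ (c0 + 1), ha0, by omega, by omega, haodd, ?_, by omega, ?_,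
      fun q hq => (haq q hq).1, fun q hq hd2 => ?_, fun hle => ?_⟩
    · exact Nat.Coprime.pow_right _ (Nat.coprime_two_right.mpr haodd)
    · have h2 : (2 * c0 + 5 + 2 ^ (c0 + 1)) * 1 ≤ (2 * c0 + 5 + 2 ^ (c0 + 1)) * W :=
        Nat.mul_le_mul_left _ h25
      omega
    · have h3 := (oddP_spec hq).2.1.dvd_of_dvd_pow hd2
      have h4 := (oddP_spec hq).1
      have := Nat.le_of_dvd (by norm_num) h3
      omega
    · exact Nat.Odd.sub_even hle hd (by rw [pow_succ]; exact even_two.mul_left _)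

/-- the inequalities for `d` large -/
lemma sizes {K C1 C3 C4 Y y z w d a₁ a₂ : ℝ} (hK : 1 ≤ K) (hC1 : 1 ≤ C1) (hC3 : 1 ≤ C3)
    (hC4 : C4 = (4 * K * C1 ^ 2 + 1) * C3)
    (hY : Y = 1 + 16 * K ^ 2 * C1 ^ 4 + (C4 + 2 * C1) * (8 * K ^ 2 * C1 ^ 5) + 4 * K * C1 ^ 2)
    (hy : Y ≤ y) (hz : 1 ≤ z) (hw : 1 ≤ w) (hwy : w ≤ C1 * y) (hd : d = z * y ^ 64)
    (ha1 : 1 ≤ a₁) (ha2 : 1 ≤ a₂) (ha1' : a₁ ≤ K * w ^ 2) (ha2' : a₂ ≤ K * w ^ 2) :
    16 * (a₁ * a₂) ≤ d ∧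
    (∀ X B T G : ℝ, 0 ≤ B → X ≤ 4 * a₁ * z → B ≤ C3 * y → d < 8 * (a₁ * a₂) * (T + 1) → T / w - w ≤ G →
      (X + 1) * B < G) ∧
    (∀ μ : ℝ, ∀ a : ℝ, 0 < a → a ≤ K * w ^ 2 → d ≤ 4 * a * μ → z * y ^ 48 ≤ μ) := by
  have hC40 : 0 ≤ C4 := by rw [hC4]; positivity
  have hY1 : 1 ≤ Y := by
    rw [hY]
    have h1 : 0 ≤ 16 * K ^ 2 * C1 ^ 4 := by positivity
    have h2 : 0 ≤ (C4 + 2 * C1) * (8 * K ^ 2 * C1 ^ 5) := by positivity
    have h3 : 0 ≤ 4 * K * C1 ^ 2 := by positivity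
    linarith
  have hy1 : 1 ≤ y := hY1.trans hy
  have hy0 : 0 < y := by linarith
  have hz0 : 0 < z := by linarith
  have hw0 : 0 < w := by linarith
  have hp1 : 0 < 16 * K ^ 2 * C1 ^ 4 := by positivity
  have hp2 : 0 < (C4 + 2 * C1) * (8 * K ^ 2 * C1 ^ 5) := by positivity
  have hp3 : 0 < 4 * K * C1 ^ 2 := by positivity
  have hw2 : w ^ 2 ≤ C1 ^ 2 * y ^ 2 := by
    rw [← mul_pow]; exact pow_le_pow_left₀ hw0.le hwy 2
  have hw4 : w ^ 4 ≤ C1 ^ 4 * y ^ 4 := by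
    rw [← mul_pow]; exact pow_le_pow_left₀ hw0.le hwy 4
  have hw5 : w ^ 5 ≤ C1 ^ 5 * y ^ 5 := by
    rw [← mul_pow]; exact pow_le_pow_left₀ hw0.le hwy 5
  have haa : a₁ * a₂ ≤ K ^ 2 * w ^ 4 := by
    calc a₁ * a₂ ≤ (K * w ^ 2) * (K * w ^ 2) := mul_le_mul ha1' ha2' (by linarith) (by positivity)
      _ = K ^ 2 * w ^ 4 := by ring
  have hge : ∀ m n : ℕ, m ≤ n → y ^ m ≤ y ^ n := fun m n h => pow_le_pow_right₀ hy1 h
  refine ⟨?_, ?_, ?_⟩
  · calc 16 * (a₁ * a₂) ≤ 16 * (K ^ 2 * (C1 ^ 4 * y ^ 4)) := by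
          have := haa.trans (mul_le_mul_of_nonneg_left hw4 (by positivity : (0:ℝ) ≤ K ^ 2))
          linarith
      _ = (16 * K ^ 2 * C1 ^ 4) * y ^ 4 := by ring
      _ ≤ y * y ^ 4 := mul_le_mul_of_nonneg_right (by linarith) (by positivity)
      _ = y ^ 5 := by ring
      _ ≤ y ^ 64 := hge _ _ (by norm_num)
      _ = 1 * y ^ 64 := (one_mul _).symm
      _ ≤ z * y ^ 64 := mul_le_mul_of_nonneg_right hz (by positivity)
      _ = d := hd.symm
  · intro X B T G hB0 hX hB hT hG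
    -- lower bound for `G`
    have hT0 : 0 < T + 1 := by
      by_contra h
      push Not at h
      have h3 : 8 * (a₁ * a₂) * (T + 1) ≤ 0 := mul_nonpos_of_nonneg_of_nonpos (by positivity) h
      have h4 : 0 < d := by rw [hd]; positivity
      linarith
    have h1 : d < 8 * K ^ 2 * w ^ 4 * (T + 1) := by
      refine hT.trans_le (mul_le_mul_of_nonneg_right ?_ hT0.le)
      linarith
    have h2 : (T + 1) / w - 2 * w ≤ G := by
      have h3 : (T + 1) / w = T / w + 1 / w := by rw [add_div]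
      have h4 : 1 / w ≤ w := by
        rw [div_le_iff₀ hw0]; nlinarith
      linarith
    have h3 : z * y ^ 59 < 8 * K ^ 2 * C1 ^ 5 * ((T + 1) / w) := by
      have h4 : z * y ^ 59 * y ^ 5 < 8 * K ^ 2 * w ^ 5 * ((T + 1) / w) := by
        calc z * y ^ 59 * y ^ 5 = d := by rw [hd]; ring
          _ < 8 * K ^ 2 * w ^ 4 * (T + 1) := h1
          _ = 8 * K ^ 2 * w ^ 5 * ((T + 1) / w) := by field_simp
      have h5 : 8 * K ^ 2 * w ^ 5 * ((T + 1) / w) ≤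
          (8 * K ^ 2 * C1 ^ 5 * ((T + 1) / w)) * y ^ 5 := by
        have h6 : 0 ≤ (T + 1) / w := by positivity
        calc 8 * K ^ 2 * w ^ 5 * ((T + 1) / w) ≤ 8 * K ^ 2 * (C1 ^ 5 * y ^ 5) * ((T + 1) / w) := by
              gcongr
          _ = _ := by ring
      exact lt_of_mul_lt_mul_right (h4.trans_le h5) (by positivity)
    -- upper bound for the left side
    have h4 : X + 1 ≤ (4 * K * C1 ^ 2 + 1) * (z * y ^ 2) := by
      have h5 : 4 * a₁ * z ≤ 4 * K * C1 ^ 2 * (z * y ^ 2) := by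
        have := ha1'.trans (mul_le_mul_of_nonneg_left hw2 (by positivity : (0:ℝ) ≤ K))
        calc 4 * a₁ * z ≤ 4 * (K * (C1 ^ 2 * y ^ 2)) * z := by gcongr
          _ = _ := by ring
      have h6 : 1 ≤ z * y ^ 2 := one_le_mul_of_one_le_of_one_le hz (one_le_pow₀ hy1)
      linarith
    have h5 : (X + 1) * B ≤ C4 * (z * y ^ 3) := by
      calc (X + 1) * B ≤ ((4 * K * C1 ^ 2 + 1) * (z * y ^ 2)) * B :=
            mul_le_mul_of_nonneg_right h4 hB0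
        _ ≤ ((4 * K * C1 ^ 2 + 1) * (z * y ^ 2)) * (C3 * y) :=
            mul_le_mul_of_nonneg_left hB (by positivity)
        _ = C4 * (z * y ^ 3) := by rw [hC4]; ring
    have h6 : 2 * w ≤ 2 * C1 * (z * y ^ 3) := by
      have h7 : y ≤ z * y ^ 3 := by
        calc y = 1 * y ^ 1 := by ring
          _ ≤ z * y ^ 3 := mul_le_mul hz (hge _ _ (by norm_num)) (by positivity) (by positivity)
      calc 2 * w ≤ 2 * (C1 * y) := by linarith
        _ = 2 * C1 * y := by ring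
        _ ≤ 2 * C1 * (z * y ^ 3) := by gcongr
    have h7 : 8 * K ^ 2 * C1 ^ 5 * ((C4 + 2 * C1) * (z * y ^ 3)) < z * y ^ 59 := by
      calc 8 * K ^ 2 * C1 ^ 5 * ((C4 + 2 * C1) * (z * y ^ 3)) =
            ((C4 + 2 * C1) * (8 * K ^ 2 * C1 ^ 5)) * (z * y ^ 3) := by ring
        _ < y * (z * y ^ 3) := mul_lt_mul_of_pos_right (by linarith) (by positivity)
        _ = z * y ^ 4 := by ring
        _ ≤ z * y ^ 59 := mul_le_mul_of_nonneg_left (hge _ _ (by norm_num)) hz0.le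
    have h8 : (C4 + 2 * C1) * (z * y ^ 3) < (T + 1) / w := by
      have h9 : 8 * K ^ 2 * C1 ^ 5 * ((C4 + 2 * C1) * (z * y ^ 3)) <
          8 * K ^ 2 * C1 ^ 5 * ((T + 1) / w) := h7.trans h3
      exact lt_of_mul_lt_mul_left h9 (by positivity)
    linarith
  · intro μ a ha haK hμ
    have h1 : z * y ^ 48 * (4 * a) ≤ μ * (4 * a) := by
      calc z * y ^ 48 * (4 * a) ≤ z * y ^ 48 * (4 * (K * (C1 ^ 2 * y ^ 2))) := by
            have := haK.trans (mul_le_mul_of_nonneg_left hw2 (by positivity : (0:ℝ) ≤ K))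
            gcongr
        _ = z * y ^ 50 * (4 * K * C1 ^ 2) := by ring
        _ ≤ z * y ^ 50 * y := by
            gcongr
            linarith
        _ = z * y ^ 51 := by ring
        _ ≤ z * y ^ 64 := mul_le_mul_of_nonneg_left (hge _ _ (by norm_num)) hz0.le
        _ = d := hd.symm
        _ ≤ 4 * a * μ := hμ
        _ = μ * (4 * a) := by ring
    exact le_of_mul_le_mul_right h1 (by positivity)

end Pool.Agent.SmallProd54
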