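import Pool.Agent.SmallProd54.Sieve

/-!
# Choice of the coefficients and of the progression of decompositions
-/

namespace Pool.Agent.SmallProd54

open Finset

/-- the odd primes dividing `M` -/
noncomputable def oddP (M : ℕ) : Finset ℕ := M.primeFactors.erase 2

lemma oddP_spec {M q : ℕ} (hq : q ∈ oddP M) : 3 ≤ q ∧ q.Prime ∧ q ∣ M := by
  rw [oddP, mem_erase] at hq
  have h1 := Nat.prime_of_mem_primeFactors hq.2
  have h2 := h1.two_le
  exact ⟨by have := hq.1; omega, h1, Nat.dvd_of_mem_primeFactors hq.2⟩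

lemma mem_oddP {M q : ℕ} (hM : M ≠ 0) (hq : q.Prime) (hd : q ∣ M) (h2 : q ≠ 2) : q ∈ oddP M := by
  rw [oddP, mem_erase]
  exact ⟨h2, Nat.mem_primeFactors.mpr ⟨hq, hd, hM⟩⟩

lemma oddP_card_le (M : ℕ) : (oddP M).card ≤ M.primeFactors.card :=
  Finset.card_le_card (Finset.erase_subset _ _)

lemma exists_sol (c e q ρ : ℕ) (hq : 0 < q) (he : Nat.Coprime e q) (hρ : ρ < q) :
    ∃ s0, s0 < q ∧ (c + e * s0) % q = ρ := by
  have : NeZero q := ⟨hq.ne'⟩
  obtain ⟨u, hu⟩ : ∃ u : ZMod q, (e : ZMod q) * u = 1 := by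
    have : IsUnit (e : ZMod q) := (ZMod.isUnit_iff_coprime e q).mpr he
    obtain ⟨v, hv⟩ := this
    exact ⟨(v⁻¹ : (ZMod q)ˣ), by rw [← hv]; simp⟩
  refine ⟨((u * ((ρ : ZMod q) - c)) : ZMod q).val, ZMod.val_lt _, ?_⟩
  have h1 : ((c + e * ((u * ((ρ : ZMod q) - c)) : ZMod q).val : ℕ) : ZMod q) = (ρ : ZMod q) := by
    push_cast
    rw [ZMod.natCast_zmod_val, ← mul_assoc, hu]
    ring
  rw [ZMod.natCast_eq_natCast_iff] at h1
  have h2 : (c + e * ((u * ((ρ : ZMod q) - c)) : ZMod q).val) % q = ρ % q := h1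
  rw [h2, Nat.mod_eq_of_lt hρ]

/-- an odd `a ≥ c0` such that `a` and `a + 2` are prime to the odd part of `M` -/
lemma choose_a (c0 M : ℕ) : ∃ a, c0 ≤ a ∧ Odd a ∧ a ≤ 2 * c0 + 1 + 2 * 25 ^ (oddP M).card ∧
    ∀ q ∈ oddP M, ¬ q ∣ a ∧ ¬ q ∣ a + 2 := by
  have h := cnt_lower (fun q => {0, q - 2}) (oddP M)
    (fun q hq => ⟨(oddP_spec hq).1, (oddP_spec hq).2.1⟩)
    (fun q _ => Finset.card_le_two)
    (fun q hq ρ hρ => by
      have := (oddP_spec hq).1
      rw [mem_insert, mem_singleton] at hρ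
      omega)
    (2 * c0 + 1) 2 (25 ^ (oddP M).card + 1)
    (fun q hq => by
      rw [Nat.coprime_primes Nat.prime_two (oddP_spec hq).2.1]
      have := (oddP_spec hq).1
      omega)
  have h5 : (0:ℝ) < 5 ^ (oddP M).card := by positivity
  have h25 : (25:ℝ) ^ (oddP M).card = 5 ^ (oddP M).card * 5 ^ (oddP M).card := by
    rw [← mul_pow]; norm_num
  have h1 : (0:ℝ) < ((25 ^ (oddP M).card + 1 : ℕ) : ℝ) / 5 ^ (oddP M).card - 5 ^ (oddP M).card := by
    push_cast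
    rw [h25, add_div, mul_div_cancel_right₀ _ h5.ne']
    have : (0:ℝ) < 1 / 5 ^ (oddP M).card := by positivity
    linarith
  have h2 : 0 < cnt (fun q => {0, q - 2}) (oddP M) (2 * c0 + 1) 2 (25 ^ (oddP M).card + 1) := by
    have := h1.trans_le h
    exact_mod_cast this
  rw [cnt, card_pos] at h2
  obtain ⟨s, hs⟩ := h2
  rw [mem_filter, mem_range] at hs
  refine ⟨2 * c0 + 1 + 2 * s, by omega, ⟨c0 + s, by ring⟩, by omega, fun q hq => ?_⟩
  have h3 := hs.2 q hq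
  have hq3 := (oddP_spec hq).1
  rw [mem_insert, mem_singleton, not_or] at h3
  refine ⟨fun hd => h3.1 (Nat.mod_eq_zero_of_dvd hd), fun hd => h3.2 ?_⟩
  obtain ⟨k, hk⟩ := hd
  have hk0 : 0 < k := by
    rcases Nat.eq_zero_or_pos k with h0 | h0
    · subst h0; omega
    · exact h0
  obtain ⟨j, rfl⟩ : ∃ j, k = j + 1 := ⟨k - 1, by omega⟩
  have e1 : q * (j + 1) = q * j + q := by ring
  have e2 : 2 * c0 + 1 + 2 * s = (q - 2) + q * j := by omega
  rw [e2, Nat.add_mul_mod_self_left, Nat.mod_eq_of_lt (by omega)]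

/-- the progression -/
theorem prog (d M a₁ a₂ : ℕ) (hM : 1 ≤ M) (h1 : Odd a₁) (h2 : 0 < a₂) (h12 : Nat.Coprime a₁ a₂)
    (hda : Odd (d - a₂)) (hq1 : ∀ q ∈ oddP M, ¬ q ∣ a₁) (hq2 : ∀ q ∈ oddP M, ¬ q ∣ a₂)
    (hbig : 16 * (a₁ * a₂) ≤ d) :
    ∃ G : Finset ℕ, ((d / (8 * (a₁ * a₂)) : ℕ) : ℝ) / 5 ^ (oddP M).card - 5 ^ (oddP M).card ≤
      (G.card : ℝ) ∧ ∀ μ ∈ G, ∃ μ₂, a₁ * μ + a₂ * μ₂ = d ∧ Nat.Coprime (μ * μ₂) M ∧
        d ≤ 4 * a₁ * μ ∧ d ≤ 4 * a₂ * μ₂ := by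
  have ha1 : 0 < a₁ := h1.pos
  have hc2 : Nat.Coprime a₁ (2 * a₂) := by
    refine Nat.Coprime.mul_right ?_ h12
    rw [Nat.coprime_two_right]
    exact h1
  obtain ⟨m0, hm0, hm0'⟩ := exists_sol 0 a₁ (2 * a₂) ((d - a₂) % (2 * a₂)) (by omega) hc2
    (Nat.mod_lt _ (by omega))
  rw [zero_add] at hm0'
  set T := d / (8 * (a₁ * a₂)) with hT
  have ha12 : 0 < a₁ * a₂ := Nat.mul_pos ha1 h2
  have hT1 : 8 * (a₁ * a₂) * T ≤ d := Nat.mul_div_le _ _
  have hT2 : d < 8 * (a₁ * a₂) * (T + 1) := Nat.lt_mul_div_succ _ (by omega)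
  have ha2le : a₂ ≤ a₁ * a₂ := Nat.le_mul_of_pos_left _ ha1
  set R : ℕ → Finset ℕ := fun q => (range q).filter (fun ρ => ρ = 0 ∨ (a₁ * ρ) % q = d % q) with hR
  have hcop : ∀ q ∈ oddP M, Nat.Coprime a₁ q := fun q hq => by
    rw [Nat.coprime_comm]
    exact (Nat.Prime.coprime_iff_not_dvd (oddP_spec hq).2.1).mpr (hq1 q hq)
  have hcnt := cnt_lower R (oddP M) (fun q hq => ⟨(oddP_spec hq).1, (oddP_spec hq).2.1⟩)
    (fun q hq => by
      have hq0 : 0 < q := by have := (oddP_spec hq).1; omega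
      obtain ⟨ρ0, hρ0, hρ0'⟩ := exists_sol 0 a₁ q (d % q) hq0 (hcop q hq) (Nat.mod_lt _ hq0)
      rw [zero_add] at hρ0'
      have hsub : R q ⊆ {0, ρ0} := by
        intro ρ hρ
        rw [hR, mem_filter, mem_range] at hρ
        rw [mem_insert, mem_singleton]
        rcases hρ.2 with h | h
        · exact Or.inl h
        · right
          have h3 : a₁ * ρ ≡ a₁ * ρ0 [MOD q] := by
            show (a₁ * ρ) % q = (a₁ * ρ0) % q
            rw [h, hρ0']
          have h4 : ρ ≡ ρ0 [MOD q] := Nat.ModEq.cancel_left_of_coprime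
            (Nat.coprime_comm.mp (hcop q hq)) h3
          have h5 : ρ % q = ρ0 % q := h4
          rwa [Nat.mod_eq_of_lt hρ.1, Nat.mod_eq_of_lt hρ0] at h5
      exact (Finset.card_le_card hsub).trans Finset.card_le_two)
    (fun q hq ρ hρ => by
      rw [hR, mem_filter, mem_range] at hρ
      exact hρ.1)
    (m0 + 2 * a₂ * (T + 1)) (2 * a₂) T
    (fun q hq => by
      refine Nat.Coprime.mul_left ?_ ?_
      · rw [Nat.coprime_primes Nat.prime_two (oddP_spec hq).2.1]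
        have := (oddP_spec hq).1
        omega
      · rw [Nat.coprime_comm]
        exact (Nat.Prime.coprime_iff_not_dvd (oddP_spec hq).2.1).mpr (hq2 q hq))
  refine ⟨((range T).filter (fun s => ∀ q ∈ oddP M,
    (m0 + 2 * a₂ * (T + 1) + 2 * a₂ * s) % q ∉ R q)).image
      (fun s => m0 + 2 * a₂ * (T + 1) + 2 * a₂ * s), ?_, ?_⟩
  · rw [Finset.card_image_of_injective]
    · exact hcnt
    · intro s s' hss
      have : 2 * a₂ * s = 2 * a₂ * s' := by
        have h : m0 + 2 * a₂ * (T + 1) + 2 * a₂ * s = m0 + 2 * a₂ * (T + 1) + 2 * a₂ * s' := hss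
        omega
      exact Nat.eq_of_mul_eq_mul_left (by omega) this
  · intro μ hμ
    rw [mem_image] at hμ
    obtain ⟨s, hs, rfl⟩ := hμ
    rw [mem_filter, mem_range] at hs
    obtain ⟨hsT, hsP⟩ := hs
    set μ := m0 + 2 * a₂ * (T + 1) + 2 * a₂ * s with hμ
    -- sizes
    have hμle : μ ≤ 2 * a₂ + 4 * a₂ * T := by
      have h3 : 2 * a₂ * (T + 1) + 2 * a₂ * s = 2 * a₂ * (T + (s + 1)) := by ring
      have h4 : 2 * a₂ * (T + (s + 1)) ≤ 2 * a₂ * (T + T) := Nat.mul_le_mul_left _ (by omega)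
      have h5 : 2 * a₂ * (T + T) = 4 * a₂ * T := by ring
      omega
    have h8 : 8 * (a₁ * μ) ≤ 5 * d := by
      have h3 : a₁ * μ ≤ a₁ * (2 * a₂ + 4 * a₂ * T) := Nat.mul_le_mul_left _ hμle
      have h4 : 8 * (a₁ * (2 * a₂ + 4 * a₂ * T)) = 16 * (a₁ * a₂) + 4 * (8 * (a₁ * a₂) * T) := by ring
      omega
    have hlow : d ≤ 4 * a₁ * μ := by
      have h3 : 2 * a₂ * (T + 1) ≤ μ := by omega
      have h4 : 4 * a₁ * (2 * a₂ * (T + 1)) ≤ 4 * a₁ * μ := Nat.mul_le_mul_left _ h3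
      have h5 : 4 * a₁ * (2 * a₂ * (T + 1)) = 8 * (a₁ * a₂) * (T + 1) := by ring
      omega
    -- the congruence
    have hmod : (a₁ * μ) % (2 * a₂) = (d - a₂) % (2 * a₂) := by
      have h3 : a₁ * μ = a₁ * m0 + 2 * a₂ * (a₁ * (T + 1 + s)) := by rw [hμ]; ring
      rw [h3, Nat.add_mul_mod_self_left, hm0']
    have hle : a₁ * μ ≤ d - a₂ := by omega
    have hdvd : 2 * a₂ ∣ (d - a₂) - a₁ * μ := (Nat.modEq_iff_dvd' hle).mp hmod
    obtain ⟨k, hk⟩ := hdvd
    have e0 : a₂ * (2 * k + 1) = 2 * a₂ * k + a₂ := by ring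
    have hdec : a₁ * μ + a₂ * (2 * k + 1) = d := by omega
    refine ⟨2 * k + 1, hdec, ?_, hlow, ?_⟩
    · -- coprimality
      have hodd : Odd (a₁ * μ) := by
        have h3 : a₁ * μ = (d - a₂) - 2 * (a₂ * k) := by
          have : 2 * a₂ * k = 2 * (a₂ * k) := by ring
          omega
        rw [h3]
        have hle' : 2 * (a₂ * k) ≤ d - a₂ := by
          have : 2 * a₂ * k = 2 * (a₂ * k) := by ring
          omega
        exact Nat.Odd.sub_even hle' hda (even_two_mul _)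
      have hμodd : Odd μ := (Nat.odd_mul.mp hodd).2
      rw [Nat.coprime_iff_gcd_eq_one, ← Nat.coprime_iff_gcd_eq_one]
      refine Nat.coprime_of_dvd fun q hq hq1' hq2' => ?_
      by_cases h2q : q = 2
      · subst h2q
        rcases (Nat.Prime.dvd_mul Nat.prime_two).mp hq1' with h3 | h3
        · exact (Nat.not_even_iff_odd.mpr hμodd) (even_iff_two_dvd.mpr h3)
        · omega
      · have hqP : q ∈ oddP M := mem_oddP (by omega) hq hq2' h2q
        have h3 := hsP q hqP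
        have hq0 : 0 < q := hq.pos
        have h4 : ¬ (μ % q = 0 ∨ (a₁ * (μ % q)) % q = d % q) := by
          intro h5
          apply h3
          rw [hR, mem_filter, mem_range]
          exact ⟨Nat.mod_lt _ hq0, h5⟩
        rw [not_or] at h4
        rcases (Nat.Prime.dvd_mul hq).mp hq1' with h5 | h5
        · exact h4.1 (Nat.mod_eq_zero_of_dvd h5)
        · apply h4.2
          obtain ⟨j, hj⟩ := h5
          rw [Nat.mul_mod_mod, ← hdec, hj]
          have : a₂ * (q * j) = q * (a₂ * j) := by ring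
          rw [this, Nat.add_mul_mod_self_left]
    · have h3 : 4 * a₂ * (2 * k + 1) = 4 * (a₂ * (2 * k + 1)) := by ring
      omega

end Pool.Agent.SmallProd54
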