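import Mathlib

/-!
# Legendre sieve with at most two forbidden classes per odd prime
-/

namespace Pool.Agent.SmallProd54

open Finset

/-- number of `s < T` such that `c + e s` avoids the classes `R q` for all `q ∈ P` -/
noncomputable def cnt (R : ℕ → Finset ℕ) (P : Finset ℕ) (c e T : ℕ) : ℕ :=
  ((range T).filter (fun s => ∀ q ∈ P, (c + e * s) % q ∉ R q)).card

/-- the density -/
noncomputable def dens (R : ℕ → Finset ℕ) (P : Finset ℕ) : ℝ :=
  ∏ q ∈ P, (1 - ((R q).card : ℝ) / q)

lemma dens_nonneg {R : ℕ → Finset ℕ} {P : Finset ℕ} (hP : ∀ q ∈ P, 3 ≤ q)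
    (hR : ∀ q ∈ P, (R q).card ≤ 2) : 0 ≤ dens R P := by
  refine Finset.prod_nonneg fun q hq => ?_
  have h1 : (3:ℝ) ≤ q := by exact_mod_cast hP q hq
  have h2 : ((R q).card : ℝ) ≤ 2 := by exact_mod_cast hR q hq
  have h3 : ((R q).card : ℝ) / q ≤ 1 := by
    rw [div_le_one (by linarith)]; linarith
  linarith

lemma dens_le_one {R : ℕ → Finset ℕ} {P : Finset ℕ} (hP : ∀ q ∈ P, 3 ≤ q)
    (hR : ∀ q ∈ P, (R q).card ≤ 2) : dens R P ≤ 1 := by
  refine Finset.prod_le_one (fun q hq => ?_) fun q hq => ?_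
  · have h1 : (3:ℝ) ≤ q := by exact_mod_cast hP q hq
    have h2 : ((R q).card : ℝ) ≤ 2 := by exact_mod_cast hR q hq
    have h3 : ((R q).card : ℝ) / q ≤ 1 := by
      rw [div_le_one (by linarith)]; linarith
    linarith
  · have : (0:ℝ) ≤ ((R q).card : ℝ) / q := by positivity
    linarith

/-- the sub-progression of the `s` with `c + e s ≡ ρ mod q` -/
lemma cnt_class (R : ℕ → Finset ℕ) (P : Finset ℕ) (c e T q ρ : ℕ) (hq : 0 < q)
    (he : Nat.Coprime e q) (hρ : ρ < q) :
    ∃ c' T' : ℕ, ((range T).filter (fun s => (c + e * s) % q = ρ ∧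
      ∀ p ∈ P, (c + e * s) % p ∉ R p)).card = cnt R P c' (e * q) T' ∧
      |(T' : ℝ) - (T : ℝ) / q| ≤ 1 := by
  -- the solution `s0 < q`
  obtain ⟨s0, hs0, hs⟩ : ∃ s0, s0 < q ∧ (c + e * s0) % q = ρ := by
    haveI : NeZero q := ⟨hq.ne'⟩
    obtain ⟨u, hu⟩ : ∃ u : ZMod q, (e : ZMod q) * u = 1 := by
      have : IsUnit (e : ZMod q) := (ZMod.isUnit_iff_coprime e q).mpr he
      obtain ⟨v, hv⟩ := this
      exact ⟨(v⁻¹ : (ZMod q)ˣ), by rw [← hv]; simp⟩
    refine ⟨((u * ((ρ : ZMod q) - c)) : ZMod q).val, ZMod.val_lt _, ?_⟩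
    have h1 : ((c + e * ((u * ((ρ : ZMod q) - c)) : ZMod q).val : ℕ) : ZMod q) = (ρ : ZMod q) := by
      push_cast
      rw [ZMod.natCast_zmod_val, ← mul_assoc, hu]
      ring
    rw [ZMod.natCast_eq_natCast_iff] at h1
    have h2 : (c + e * ((u * ((ρ : ZMod q) - c)) : ZMod q).val) % q = ρ % q := h1
    rw [h2, Nat.mod_eq_of_lt hρ]
  refine ⟨c + e * s0, (T + q - 1 - s0) / q, ?_, ?_⟩
  · unfold cnt
    symm
    refine Finset.card_bij (fun s _ => s0 + q * s) ?_ ?_ ?_
    · intro s hs'
      rw [mem_filter, mem_range] at hs' ⊢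
      have h1 : s + 1 ≤ (T + q - 1 - s0) / q := hs'.1
      have h2 : (s + 1) * q ≤ T + q - 1 - s0 := (Nat.le_div_iff_mul_le hq).mp h1
      have h3 : (s + 1) * q = q * s + q := by ring
      refine ⟨by omega, ?_, ?_⟩
      · have : c + e * (s0 + q * s) = c + e * s0 + q * (e * s) := by ring
        rw [this, Nat.add_mul_mod_self_left, hs]
      · intro p hp
        have : c + e * (s0 + q * s) = c + e * s0 + e * q * s := by ring
        rw [this]
        exact hs'.2 p hp
    · intro a _ b _ hab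
      have : q * a = q * b := by omega
      exact Nat.eq_of_mul_eq_mul_left hq this
    · intro s hs'
      rw [mem_filter, mem_range] at hs'
      obtain ⟨hsT, hsρ, hsP⟩ := hs'
      -- s ≡ s0 mod q
      have hmod : s % q = s0 := by
        have h1 : (c + e * s) ≡ (c + e * s0) [MOD q] := by
          show (c + e * s) % q = (c + e * s0) % q
          rw [hsρ, hs]
        have h2 : e * s ≡ e * s0 [MOD q] := Nat.ModEq.add_left_cancel' c h1
        have h3 : s ≡ s0 [MOD q] := Nat.ModEq.cancel_left_of_coprime (by rwa [Nat.coprime_comm] at he) h2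
        have h4 : s % q = s0 % q := h3
        rw [h4, Nat.mod_eq_of_lt hs0]
      refine ⟨s / q, ?_, ?_⟩
      · rw [mem_filter, mem_range]
        have h5 : q * (s / q) + s % q = s := Nat.div_add_mod s q
        refine ⟨?_, ?_⟩
        · rw [Nat.lt_iff_add_one_le, Nat.le_div_iff_mul_le hq]
          have : (s / q + 1) * q = q * (s / q) + q := by ring
          omega
        · intro p hp
          have : c + e * s0 + e * q * (s / q) = c + e * s := by
            have : e * s = e * (q * (s / q) + s0) := by rw [← hmod, h5]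
            rw [this]; ring
          rw [this]
          exact hsP p hp
      · have h5 : q * (s / q) + s % q = s := Nat.div_add_mod s q
        show s0 + q * (s / q) = s
        omega
  · have hq' : (0:ℝ) < q := by exact_mod_cast hq
    set T' := (T + q - 1 - s0) / q with hT'
    have h1 : T' * q ≤ T + q - 1 - s0 := Nat.div_mul_le_self _ _
    have h2 : T + q - 1 - s0 < (T' + 1) * q := by
      have h3 := Nat.div_add_mod (T + q - 1 - s0) q
      have h4 := Nat.mod_lt (T + q - 1 - s0) hq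
      rw [← hT'] at h3
      have : (T' + 1) * q = q * T' + q := by ring
      omega
    have h3 : T' * q ≤ T + q := by omega
    have h4 : T ≤ (T' + 1) * q := by omega
    have h3' : (T':ℝ) * q ≤ T + q := by exact_mod_cast h3
    have h4' : (T:ℝ) ≤ (T' + 1) * q := by exact_mod_cast h4
    rw [abs_le]
    constructor
    · rw [neg_le_sub_iff_le_add, div_le_iff₀ hq']
      exact h4'
    · rw [sub_le_iff_le_add, ← sub_le_iff_le_add', le_div_iff₀ hq']
      linarith

/-- the sieve: both bounds -/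
theorem cnt_bound (R : ℕ → Finset ℕ) (P : Finset ℕ) (hP : ∀ q ∈ P, 3 ≤ q ∧ q.Prime)
    (hR : ∀ q ∈ P, (R q).card ≤ 2) (hR' : ∀ q ∈ P, ∀ ρ ∈ R q, ρ < q) :
    ∀ c e T : ℕ, (∀ q ∈ P, Nat.Coprime e q) →
      |(cnt R P c e T : ℝ) - T * dens R P| ≤ 5 ^ P.card := by
  induction P using Finset.induction_on with
  | empty =>
    intro c e T _
    simp [cnt, dens]
  | insert q P hq ih =>
    intro c e T he
    have hq3 := hP q (mem_insert_self q P)
    have hq0 : 0 < q := by omega
    have hP' : ∀ p ∈ P, 3 ≤ p ∧ p.Prime := fun p hp => hP p (mem_insert_of_mem hp)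
    have hRP : ∀ p ∈ P, (R p).card ≤ 2 := fun p hp => hR p (mem_insert_of_mem hp)
    have hRP' : ∀ p ∈ P, ∀ ρ ∈ R p, ρ < p := fun p hp => hR' p (mem_insert_of_mem hp)
    have ih' := ih hP' hRP hRP'
    have heq : Nat.Coprime e q := he q (mem_insert_self q P)
    have hdn : 0 ≤ dens R P := dens_nonneg (fun p hp => (hP' p hp).1) hRP
    have hd1 : dens R P ≤ 1 := dens_le_one (fun p hp => (hP' p hp).1) hRP
    -- the classes
    have hcl : ∀ ρ ∈ R q, |(((range T).filter (fun s => (c + e * s) % q = ρ ∧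
        ∀ p ∈ P, (c + e * s) % p ∉ R p)).card : ℝ) - (T:ℝ) / q * dens R P| ≤ 5 ^ P.card + 1 := by
      intro ρ hρ
      obtain ⟨c', T', h1, h2⟩ := cnt_class R P c e T q ρ hq0 heq (hR' q (mem_insert_self q P) ρ hρ)
      rw [h1]
      have h3 := ih' c' (e * q) T' (fun p hp => by
        refine Nat.Coprime.mul_left (he p (mem_insert_of_mem hp)) ?_
        rw [Nat.coprime_primes hq3.2 (hP' p hp).2]
        rintro rfl
        exact hq hp)
      have h4 : (cnt R P c' (e * q) T' : ℝ) - (T:ℝ) / q * dens R P =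
          ((cnt R P c' (e * q) T' : ℝ) - T' * dens R P) + ((T':ℝ) - (T:ℝ) / q) * dens R P := by ring
      rw [h4]
      refine (abs_add_le _ _).trans ?_
      have h5 : |((T':ℝ) - (T:ℝ) / q) * dens R P| ≤ 1 := by
        rw [abs_mul, abs_of_nonneg hdn]
        calc |(T':ℝ) - (T:ℝ) / q| * dens R P ≤ 1 * 1 := by gcongr
          _ = 1 := by ring
      linarith
    -- decomposition of the count
    have hdec : cnt R P c e T = cnt R (insert q P) c e T + ∑ ρ ∈ R q,
        ((range T).filter (fun s => (c + e * s) % q = ρ ∧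
          ∀ p ∈ P, (c + e * s) % p ∉ R p)).card := by
      unfold cnt
      have h1 : ((range T).filter (fun s => ∀ p ∈ P, (c + e * s) % p ∉ R p)) =
          ((range T).filter (fun s => ∀ p ∈ insert q P, (c + e * s) % p ∉ R p)) ∪
          (R q).biUnion (fun ρ => (range T).filter (fun s => (c + e * s) % q = ρ ∧
            ∀ p ∈ P, (c + e * s) % p ∉ R p)) := by
        ext s
        simp only [mem_union, mem_filter, mem_range, mem_biUnion, mem_insert, forall_eq_or_imp]
        constructor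
        · rintro ⟨h1, h2⟩
          by_cases h3 : (c + e * s) % q ∈ R q
          · right
            exact ⟨_, h3, h1, rfl, h2⟩
          · left
            exact ⟨h1, h3, h2⟩
        · rintro (⟨h1, _, h2⟩ | ⟨ρ, _, h1, _, h2⟩)
          · exact ⟨h1, h2⟩
          · exact ⟨h1, h2⟩
      rw [h1, card_union_of_disjoint, card_biUnion]
      · intro x _ y _ hxy
        rw [Function.onFun, Finset.disjoint_left]
        intro s hs hs'
        rw [mem_filter] at hs hs'
        exact hxy (hs.2.1.symm.trans hs'.2.1)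
      · rw [Finset.disjoint_left]
        intro s hs hs'
        rw [mem_filter] at hs
        rw [mem_biUnion] at hs'
        obtain ⟨ρ, hρ, hs'⟩ := hs'
        rw [mem_filter] at hs'
        have := hs.2 q (mem_insert_self q P)
        rw [hs'.2.1] at this
        exact this hρ
    have hdec' : (cnt R (insert q P) c e T : ℝ) = (cnt R P c e T : ℝ) - ∑ ρ ∈ R q,
        (((range T).filter (fun s => (c + e * s) % q = ρ ∧
          ∀ p ∈ P, (c + e * s) % p ∉ R p)).card : ℝ) := by
      rw [hdec]; push_cast; ring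
    have hdens : dens R (insert q P) = (1 - ((R q).card : ℝ) / q) * dens R P := by
      unfold dens
      rw [prod_insert hq]
    have hsum : |∑ ρ ∈ R q, (((range T).filter (fun s => (c + e * s) % q = ρ ∧
          ∀ p ∈ P, (c + e * s) % p ∉ R p)).card : ℝ) - (R q).card * ((T:ℝ) / q * dens R P)| ≤
          2 * (5 ^ P.card + 1) := by
      have h1 : ∑ ρ ∈ R q, (((range T).filter (fun s => (c + e * s) % q = ρ ∧
          ∀ p ∈ P, (c + e * s) % p ∉ R p)).card : ℝ) - (R q).card * ((T:ℝ) / q * dens R P) =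
          ∑ ρ ∈ R q, ((((range T).filter (fun s => (c + e * s) % q = ρ ∧
          ∀ p ∈ P, (c + e * s) % p ∉ R p)).card : ℝ) - (T:ℝ) / q * dens R P) := by
        rw [sum_sub_distrib, sum_const, nsmul_eq_mul]
      rw [h1]
      refine (Finset.abs_sum_le_sum_abs _ _).trans ((Finset.sum_le_sum hcl).trans ?_)
      rw [sum_const, nsmul_eq_mul]
      have : ((R q).card : ℝ) ≤ 2 := by exact_mod_cast hR q (mem_insert_self q P)
      gcongr
    have h0 := ih' c e T (fun p hp => he p (mem_insert_of_mem hp))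
    rw [card_insert_of_notMem hq, pow_succ, hdens, hdec']
    rw [abs_le] at h0 hsum ⊢
    have h5 : (1:ℝ) ≤ 5 ^ P.card := one_le_pow₀ (by norm_num)
    have e1 : (T:ℝ) * ((1 - ((R q).card : ℝ) / q) * dens R P) =
        T * dens R P - (R q).card * ((T:ℝ) / q * dens R P) := by ring
    rw [e1]
    constructor <;> linarith [h0.1, h0.2, hsum.1, hsum.2]

/-- lower bound for the density -/
lemma prod_lower (P : Finset ℕ) (hP : ∀ q ∈ P, 3 ≤ q) :
    2 / (((P.card : ℝ) + 1) * (P.card + 2)) ≤ ∏ q ∈ P, (1 - (2:ℝ) / q) ∧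
    ∀ m : ℕ, (∀ q ∈ P, q < m) → 3 ≤ m → P.card + 3 ≤ m := by
  induction P using Finset.induction_on_max with
  | empty => simp
  | insert q P hmax ih =>
    have hqP : q ∉ P := fun h => lt_irrefl _ (hmax q h)
    obtain ⟨ih1, ih2⟩ := ih (fun p hp => hP p (mem_insert_of_mem hp))
    have hq3 : 3 ≤ q := hP q (mem_insert_self q P)
    have hcq : P.card + 3 ≤ q := ih2 q hmax hq3
    refine ⟨?_, ?_⟩
    · rw [prod_insert hqP, card_insert_of_notMem hqP]
      push_cast
      have hc : ((P.card : ℝ) + 3) ≤ q := by exact_mod_cast hcq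
      have hc0 : (0:ℝ) ≤ P.card := by positivity
      have h1 : (1:ℝ) - 2 / ((P.card : ℝ) + 3) ≤ 1 - 2 / q := by
        have : (2:ℝ) / q ≤ 2 / ((P.card : ℝ) + 3) := by gcongr
        linarith
      have h2 : (0:ℝ) ≤ 1 - 2 / ((P.card : ℝ) + 3) := by
        have : (2:ℝ) / ((P.card : ℝ) + 3) ≤ 1 := by rw [div_le_one (by linarith)]; linarith
        linarith
      have h3 : 2 / (((P.card : ℝ) + 1 + 1) * (P.card + 1 + 2)) =
          (1 - 2 / ((P.card : ℝ) + 3)) * (2 / (((P.card : ℝ) + 1) * (P.card + 2))) := by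
        field_simp
        ring
      rw [h3]
      have h4 : (0:ℝ) ≤ 2 / (((P.card : ℝ) + 1) * (P.card + 2)) := by positivity
      calc (1 - 2 / ((P.card : ℝ) + 3)) * (2 / (((P.card : ℝ) + 1) * (P.card + 2)))
          ≤ (1 - 2 / q) * (2 / (((P.card : ℝ) + 1) * (P.card + 2))) := by gcongr
        _ ≤ (1 - 2 / q) * ∏ x ∈ P, (1 - (2:ℝ) / x) := by
          refine mul_le_mul_of_nonneg_left ih1 (h2.trans h1)
    · intro m hm _
      rw [card_insert_of_notMem hqP]
      have := hm q (mem_insert_self q P)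
      omega

lemma dens_lower {R : ℕ → Finset ℕ} {P : Finset ℕ} (hP : ∀ q ∈ P, 3 ≤ q)
    (hR : ∀ q ∈ P, (R q).card ≤ 2) : 1 / (5:ℝ) ^ P.card ≤ dens R P := by
  have h1 : 1 / (5:ℝ) ^ P.card ≤ 2 / (((P.card : ℝ) + 1) * (P.card + 2)) := by
    have h : ∀ n : ℕ, ((n:ℝ) + 1) * (n + 2) ≤ 2 * 5 ^ n := by
      intro n
      induction n with
      | zero => norm_num
      | succ n ih =>
        push_cast
        rw [pow_succ]
        have : (0:ℝ) ≤ n := by positivity
        nlinarith
    rw [div_le_div_iff₀ (by positivity) (by positivity)]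
    linarith [h P.card]
  refine h1.trans ((prod_lower P hP).1.trans ?_)
  refine Finset.prod_le_prod (fun q hq => ?_) fun q hq => ?_
  · have h1 : (3:ℝ) ≤ q := by exact_mod_cast hP q hq
    have h3 : (2:ℝ) / q ≤ 1 := by
      rw [div_le_one (by linarith)]; linarith
    linarith
  · have h1 : (3:ℝ) ≤ q := by exact_mod_cast hP q hq
    have h2 : ((R q).card : ℝ) ≤ 2 := by exact_mod_cast hR q hq
    gcongr

/-- the form used -/
theorem cnt_lower (R : ℕ → Finset ℕ) (P : Finset ℕ) (hP : ∀ q ∈ P, 3 ≤ q ∧ q.Prime)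
    (hR : ∀ q ∈ P, (R q).card ≤ 2) (hR' : ∀ q ∈ P, ∀ ρ ∈ R q, ρ < q)
    (c e T : ℕ) (he : ∀ q ∈ P, Nat.Coprime e q) :
    (T:ℝ) / 5 ^ P.card - 5 ^ P.card ≤ cnt R P c e T := by
  have h1 := cnt_bound R P hP hR hR' c e T he
  have h2 := dens_lower (R := R) (fun q hq => (hP q hq).1) hR
  rw [abs_le] at h1
  have h3 : (T:ℝ) / 5 ^ P.card ≤ T * dens R P := by
    calc (T:ℝ) / 5 ^ P.card = T * (1 / 5 ^ P.card) := by ring
      _ ≤ T * dens R P := by gcongr
  linarith [h1.1]

end Pool.Agent.SmallProd54
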